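import Mathlib
import Pool.Agent.W306.SP.Defs

set_option autoImplicit false

namespace Pool.Agent.W356.SP.Ker

open MeasureTheory Pool.Agent.W306.SP

theorem sum_nonneg {d : ℕ} (x : Fin d → ℝ) : 0 ≤ ∑ k, x k ^ 2 :=
  Finset.sum_nonneg fun _ _ => sq_nonneg _

theorem base_bounds {d : ℕ} (r : ℝ) (x : Fin d → ℝ) (h : ∑ k, x k ^ 2 < r ^ 2) :
    0 ≤ 1 - (∑ k, x k ^ 2) / r ^ 2 ∧ 1 - (∑ k, x k ^ 2) / r ^ 2 ≤ 1 := by
  have h0 := sum_nonneg x
  have hr : 0 < r ^ 2 := lt_of_le_of_lt h0 h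
  constructor
  · rw [sub_nonneg, div_le_one hr]; exact h.le
  · have : 0 ≤ (∑ k, x k ^ 2) / r ^ 2 := div_nonneg h0 hr.le
    linarith

theorem kerR_nonneg {d : ℕ} (p r : ℝ) (x : Fin d → ℝ) : 0 ≤ kerR p r x := by
  unfold kerR
  split_ifs with h
  · exact Real.rpow_nonneg (base_bounds r x h).1 _
  · exact le_rfl

theorem kerR_le_one {d : ℕ} (p r : ℝ) (hp : 0 ≤ p) (x : Fin d → ℝ) : kerR p r x ≤ 1 := by
  unfold kerR
  split_ifs with h
  · exact Real.rpow_le_one (base_bounds r x h).1 (base_bounds r x h).2 hp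
  · exact zero_le_one

theorem kerR_measurable {d : ℕ} (p r : ℝ) : Measurable (fun x : Fin d → ℝ => kerR p r x) := by
  unfold kerR
  refine Measurable.ite (measurableSet_lt (by fun_prop) measurable_const) ?_ measurable_const
  exact Measurable.pow_const (by fun_prop) p

theorem kerR_eq_zero {d : ℕ} (p r : ℝ) (x : Fin d → ℝ) (k : Fin d) (h : r ^ 2 ≤ x k ^ 2) :
    kerR p r x = 0 := by
  unfold kerR
  rw [if_neg]
  rw [not_lt]
  exact h.trans (Finset.single_le_sum (f := fun k => x k ^ 2) (fun _ _ => sq_nonneg _)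
    (Finset.mem_univ k))

theorem kerR_neg {d : ℕ} (p r : ℝ) (x : Fin d → ℝ) : kerR p r (-x) = kerR p r x := by
  simp [kerR]

theorem bdd_integrable {d : ℕ} {E : Type*} [NormedAddCommGroup E] (p r : ℝ) (hp : 0 ≤ p) (hr : 0 < r)
    (G : (Fin d → ℝ) → E) (hG : AEStronglyMeasurable G volume) (hb : ∀ x, ‖G x‖ ≤ kerR p r x) :
    Integrable G := by
  have hs : Function.support G ⊆ Metric.closedBall (0 : Fin d → ℝ) r := by
    intro x hx
    rw [Function.mem_support] at hx
    rw [mem_closedBall_zero_iff, pi_norm_le_iff_of_nonneg hr.le]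
    intro k
    by_contra hk
    push Not at hk
    apply hx
    have h1 : r ^ 2 ≤ x k ^ 2 := by
      rw [← sq_abs (x k), ← Real.norm_eq_abs]
      exact pow_le_pow_left₀ hr.le hk.le 2
    have := hb x
    rw [kerR_eq_zero p r x k h1] at this
    exact norm_le_zero_iff.mp this
  rw [← integrableOn_iff_integrable_of_support_subset hs]
  refine Measure.integrableOn_of_bounded (M := 1)
    (isCompact_closedBall (0 : Fin d → ℝ) r).measure_lt_top.ne hG ?_
  exact Filter.Eventually.of_forall fun x => (hb x).trans (kerR_le_one p r hp x)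

theorem kerR_integrable {d : ℕ} (p r : ℝ) (hp : 0 ≤ p) (hr : 0 < r) :
    Integrable (fun x : Fin d → ℝ => kerR p r x) := by
  refine bdd_integrable p r hp hr _ (kerR_measurable p r).aestronglyMeasurable ?_
  intro x
  rw [Real.norm_of_nonneg (kerR_nonneg p r x)]

end Pool.Agent.W356.SP.Ker
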