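import Mathlib
import Pool.Agent.W306.SP.Defs
import Pool.Agent.W356.SP.Ker

set_option autoImplicit false

namespace Pool.Agent.W356.SP.FT1

open MeasureTheory Pool.Agent.W306.SP Pool.Agent.W356.SP.Ker

/-- the integrand on `ℝ^d` -/
noncomputable def G {d : ℕ} (p r : ℝ) (k : Fin d → ℤ) (x : Fin d → ℝ) : ℂ :=
  Complex.exp (((-(2 * Real.pi * ∑ i, (k i : ℝ) * x i) : ℝ) : ℂ) * Complex.I) * ((kerR p r x : ℝ) : ℂ)

theorem G_norm {d : ℕ} (p r : ℝ) (k : Fin d → ℤ) (x : Fin d → ℝ) : ‖G p r k x‖ = kerR p r x := by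
  rw [G, norm_mul, Complex.norm_exp_ofReal_mul_I, one_mul, Complex.norm_real,
    Real.norm_of_nonneg (kerR_nonneg p r x)]

theorem G_meas {d : ℕ} (p r : ℝ) (k : Fin d → ℤ) : Measurable (G (d := d) p r k) := by
  unfold G
  refine Measurable.mul (by fun_prop) ?_
  exact Complex.measurable_ofReal.comp (kerR_measurable p r)

theorem G_int {d : ℕ} (p r : ℝ) (hp : 0 ≤ p) (hr : 0 < r) (k : Fin d → ℤ) :
    Integrable (G (d := d) p r k) :=
  bdd_integrable p r hp hr _ (G_meas p r k).aestronglyMeasurable fun x => (G_norm p r k x).le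

theorem G_neg {d : ℕ} (p r : ℝ) (k : Fin d → ℤ) (x : Fin d → ℝ) :
    G p r k (-x) = (starRingEnd ℂ) (G p r k x) := by
  rw [G, G, kerR_neg, map_mul, Complex.conj_ofReal, ← Complex.exp_conj, map_mul, Complex.conj_ofReal,
    Complex.conj_I]
  congr 2
  simp only [Pi.neg_apply, mul_neg, Finset.sum_neg_distrib, neg_neg]
  push_cast
  ring

theorem G_re {d : ℕ} (p r : ℝ) (k : Fin d → ℤ) (x : Fin d → ℝ) :
    (G p r k x).re = kerR p r x * Real.cos (2 * Real.pi * ∑ i, (k i : ℝ) * x i) := by
  rw [G, Complex.re_mul_ofReal, Complex.exp_ofReal_mul_I_re, Real.cos_neg, mul_comm]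

theorem int_G {d : ℕ} (p r : ℝ) (hp : 0 ≤ p) (hr : 0 < r) (k : Fin d → ℤ) :
    ∫ x, G p r k x =
      ((∫ x : Fin d → ℝ, kerR p r x * Real.cos (2 * Real.pi * ∑ i, (k i : ℝ) * x i) : ℝ) : ℂ) := by
  have h1 : (starRingEnd ℂ) (∫ x, G p r k x) = ∫ x, G p r k x := by
    rw [← integral_conj]
    rw [← integral_neg_eq_self (fun x => G p r k x) volume]
    congr 1
    funext x
    exact (G_neg p r k x).symm
  have h2 : ((∫ x, G p r k x).re : ℂ) = ∫ x, G p r k x := Complex.conj_eq_iff_re.mp h1
  rw [← h2]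
  congr 1
  have h3 := Complex.reCLM.integral_comp_comm (G_int p r hp hr k)
  simp only [Complex.reCLM_apply] at h3
  rw [← h3]
  congr 1
  funext x
  exact G_re p r k x

noncomputable local instance : MeasureSpace UnitAddCircle := ⟨AddCircle.haarAddCircle⟩

theorem torus_int {d : ℕ} (f : UnitAddTorus (Fin d) → ℂ) :
    ∫ x, f x ∂(μ d) = ∫ x in {x : Fin d → ℝ | ∀ i, x i ∈ Set.Ioc (-1/2 : ℝ) (-1/2 + 1)},
      f (fun i => (x i : UnitAddCircle)) :=
  UnitAddTorus.integral_preimage f (fun _ => -1/2)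

theorem ft1 : S_FT1 := by
  intro d p r hp hr hr2 k
  rw [torus_int, ← int_G p r hp hr k]
  rw [← setIntegral_eq_integral_of_forall_compl_eq_zero (μ := volume)
    (s := {x : Fin d → ℝ | ∀ i, x i ∈ Set.Ioc (-1/2 : ℝ) (-1/2 + 1)}) (f := fun x => G p r k x)]
  · refine setIntegral_congr_fun ?_ ?_
    · exact MeasurableSet.univ_pi' (fun i => measurableSet_Ioc)
    · intro x hx
      simp only
      have hn : ∀ i, ‖(x i : UnitAddCircle)‖ = |x i| := by
        intro i
        have := hx i
        rw [AddCircle.norm_coe_eq_abs_iff 1 one_ne_zero, abs_le]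
        rw [Set.mem_Ioc] at this
        constructor
        · rw [abs_one]; linarith [this.1]
        · rw [abs_one]; linarith [this.2]
      have hns : nsq (fun i => (x i : UnitAddCircle)) = ∑ i, x i ^ 2 := by
        unfold nsq
        refine Finset.sum_congr rfl fun i _ => ?_
        rw [hn, sq_abs]
      have hk : ker p r (fun i => (x i : UnitAddCircle)) = kerR p r x := by
        unfold ker kerR
        rw [hns]
      rw [hk, G]
      congr 1
      unfold UnitAddTorus.mFourier
      simp only [ContinuousMap.coe_mk]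
      have h1 : ∀ i, (fourier ((-k) i) (x i : UnitAddCircle) : ℂ) =
          Complex.exp (-(2 * Real.pi * Complex.I * (k i) * (x i))) := by
        intro i
        rw [fourier_coe_apply]
        congr 1
        simp only [Pi.neg_apply]
        push_cast
        ring
      rw [Finset.prod_congr rfl fun i _ => h1 i, ← Complex.exp_sum]
      congr 1
      push_cast
      rw [Finset.sum_neg_distrib, Finset.mul_sum, neg_mul, Finset.sum_mul]
      congr 1
      refine Finset.sum_congr rfl fun i _ => ?_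
      ring
  · intro x hx
    simp only [Set.mem_ofPred_eq, not_forall] at hx
    obtain ⟨i, hi⟩ := hx
    have h1 : kerR p r x = 0 := by
      refine kerR_eq_zero p r x i ?_
      rw [Set.mem_Ioc, not_and_or, not_lt, not_le] at hi
      rcases hi with hi | hi <;> nlinarith
    rw [G, h1]
    simp

end Pool.Agent.W356.SP.FT1
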