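import Mathlib
import Pool.Agent.W306.SP.Defs
import Pool.Agent.W356.SP.Ker

set_option autoImplicit false

namespace Pool.Agent.W356.SP.FT2

open MeasureTheory Pool.Agent.W306.SP Pool.Agent.W356.SP.Ker

theorem kerR_smul {d : ℕ} (p r a : ℝ) (ha : 0 < a) (x : Fin d → ℝ) :
    kerR p (a * r) (a • x) = kerR p r x := by
  unfold kerR
  have h : ∑ k, (a • x) k ^ 2 = a ^ 2 * ∑ k, x k ^ 2 := by
    rw [Finset.mul_sum]
    refine Finset.sum_congr rfl fun k _ => ?_
    simp [mul_pow]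
  have ha2 : 0 < a ^ 2 := by positivity
  have h2 : a ^ 2 * ∑ k, x k ^ 2 < a ^ 2 * r ^ 2 ↔ ∑ k, x k ^ 2 < r ^ 2 :=
    mul_lt_mul_iff_right₀ ha2
  rw [h, mul_pow, mul_div_mul_left _ _ ha2.ne']
  simp only [h2]

theorem scale {d : ℕ} (p r : ℝ) (hr : 0 < r) (g : (Fin d → ℝ) → ℝ) :
    ∫ x : Fin d → ℝ, kerR p r x * g x = r ^ d * ∫ y : Fin d → ℝ, kerR p 1 y * g (r • y) := by
  have h := Measure.integral_comp_smul_of_nonneg (volume : Measure (Fin d → ℝ))
    (fun x => kerR p r x * g x) r (hR := hr.le)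
  have h2 : ∀ y : Fin d → ℝ, kerR p r (r • y) = kerR p 1 y := by
    intro y
    have := kerR_smul p 1 r hr y
    rwa [mul_one] at this
  simp only [h2] at h
  rw [h, Module.finrank_fin_fun, smul_eq_mul]
  field_simp

/-- the integral over Euclidean space -/
noncomputable def H {d : ℕ} (p : ℝ) (ξ : EuclideanSpace ℝ (Fin d)) : ℝ :=
  ∫ y : EuclideanSpace ℝ (Fin d), kerR p 1 (fun i => y i) * Real.cos (inner ℝ ξ y)

theorem kerE {d : ℕ} (p : ℝ) (y : EuclideanSpace ℝ (Fin d)) :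
    kerR p 1 (fun i => y i) = if ‖y‖ ^ 2 < 1 then (1 - ‖y‖ ^ 2) ^ p else 0 := by
  unfold kerR
  have : ‖y‖ ^ 2 = ∑ k, y k ^ 2 := by
    rw [EuclideanSpace.norm_sq_eq]
    refine Finset.sum_congr rfl fun k _ => ?_
    rw [Real.norm_eq_abs, sq_abs]
  rw [this, one_pow, div_one]

theorem H_isom {d : ℕ} (p : ℝ) (e : EuclideanSpace ℝ (Fin d) ≃ₗᵢ[ℝ] EuclideanSpace ℝ (Fin d))
    (ξ : EuclideanSpace ℝ (Fin d)) : H p (e ξ) = H p ξ := by
  unfold H
  have h := e.measurePreserving.integral_comp e.toHomeomorph.toMeasurableEquiv.measurableEmbedding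
    (fun y : EuclideanSpace ℝ (Fin d) => kerR p 1 (fun i => y i) * Real.cos (inner ℝ (e ξ) y))
  rw [← h]
  congr 1
  funext y
  simp only
  rw [kerE, kerE, e.norm_map, e.inner_map_map]

theorem toE {d : ℕ} (p : ℝ) (ξ : Fin d → ℝ) :
    ∫ x : Fin d → ℝ, kerR p 1 x * Real.cos (∑ i, ξ i * x i) = H p (WithLp.toLp 2 ξ) := by
  unfold H
  have h := (EuclideanSpace.volume_preserving_symm_measurableEquiv_toLp (Fin d)).integral_comp'
    (fun x : Fin d → ℝ => kerR p 1 x * Real.cos (∑ i, ξ i * x i))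
  rw [← h]
  congr 1
  funext y
  congr 2
  rw [PiLp.inner_apply]
  refine Finset.sum_congr rfl fun i _ => ?_
  simp [mul_comm]

theorem rotate {n : ℕ} (p : ℝ) (ξ : Fin (n + 1) → ℝ) :
    ∫ x : Fin (n + 1) → ℝ, kerR p 1 x * Real.cos (∑ i, ξ i * x i) =
      ∫ x : Fin (n + 1) → ℝ, kerR p 1 x * Real.cos (√(∑ i, ξ i ^ 2) * x 0) := by
  set R := √(∑ i, ξ i ^ 2) with hR
  have h1 : ∫ x : Fin (n + 1) → ℝ, kerR p 1 x * Real.cos (R * x 0) =
      ∫ x : Fin (n + 1) → ℝ, kerR p 1 x * Real.cos (∑ i, (Fin.cons R (fun _ => 0) : Fin (n + 1) → ℝ) i * x i) := by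
    congr 1
    funext x
    congr 2
    rw [Fin.sum_univ_succ]
    simp
  rw [h1, toE, toE]
  set v : EuclideanSpace ℝ (Fin (n + 1)) := WithLp.toLp 2 ξ
  set w : EuclideanSpace ℝ (Fin (n + 1)) := WithLp.toLp 2 (Fin.cons R (fun _ => 0) : Fin (n + 1) → ℝ)
  have hn : ‖v‖ = ‖w‖ := by
    rw [EuclideanSpace.norm_eq, EuclideanSpace.norm_eq]
    congr 1
    have e1 : ∑ i, ‖v i‖ ^ 2 = R ^ 2 := by
      rw [hR, Real.sq_sqrt (sum_nonneg ξ)]
      refine Finset.sum_congr rfl fun i _ => ?_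
      rw [Real.norm_eq_abs, sq_abs]
    have e2 : ∑ i, ‖w i‖ ^ 2 = R ^ 2 := by
      rw [Fin.sum_univ_succ]
      simp [w]
    rw [e1, e2]
  have hrefl := Submodule.reflection_sub hn
  rw [← hrefl, H_isom]

/-- the integral over the slices -/
theorem slice {n m : ℕ} (p : ℝ) (h2p : 2 * p + n = 2 * m) (s : ℝ) :
    ∫ z : Fin n → ℝ, kerR p 1 (Fin.cons s z : Fin (n + 1) → ℝ) =
      if s ^ 2 < 1 then (1 - s ^ 2) ^ m * ∫ z : Fin n → ℝ, kerR p 1 z else 0 := by
  split_ifs with hs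
  · have hpos : 0 < 1 - s ^ 2 := by linarith
    set ρ : ℝ := √(1 - s ^ 2) with hρ
    have hρ0 : 0 < ρ := Real.sqrt_pos.mpr hpos
    have hρ2 : ρ ^ 2 = 1 - s ^ 2 := Real.sq_sqrt hpos.le
    have h1 : ∀ z : Fin n → ℝ, kerR p 1 (Fin.cons s z : Fin (n + 1) → ℝ) =
        (1 - s ^ 2) ^ p * (kerR p ρ z * 1) := by
      intro z
      unfold kerR
      rw [Fin.sum_univ_succ, mul_one]
      simp only [Fin.cons_zero, Fin.cons_succ, one_pow, div_one]
      rw [hρ2]
      by_cases hz : ∑ k, z k ^ 2 < 1 - s ^ 2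
      · rw [if_pos (by linarith), if_pos hz, ← Real.mul_rpow hpos.le]
        · congr 1
          field_simp
          ring
        · rw [sub_nonneg, div_le_one hpos]; exact hz.le
      · rw [if_neg (by linarith), if_neg hz, mul_zero]
    simp_rw [h1]
    rw [integral_const_mul, scale p ρ hρ0 (fun _ => 1)]
    simp only [mul_one]
    rw [← mul_assoc]
    congr 1
    have h3 : ρ ^ n = (1 - s ^ 2) ^ ((n : ℝ) / 2) := by
      rw [hρ, Real.sqrt_eq_rpow, ← Real.rpow_natCast, ← Real.rpow_mul hpos.le]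
      congr 1
      ring
    rw [h3, ← Real.rpow_add hpos, ← Real.rpow_natCast (1 - s ^ 2) m]
    congr 1
    linarith
  · have h1 : ∀ z : Fin n → ℝ, kerR p 1 (Fin.cons s z : Fin (n + 1) → ℝ) = 0 := by
      intro z
      refine kerR_eq_zero p 1 _ 0 ?_
      simp only [Fin.cons_zero, one_pow]
      linarith
    simp only [h1, integral_zero]

theorem fubini {n m : ℕ} (p : ℝ) (hp : 0 ≤ p) (h2p : 2 * p + n = 2 * m) (R : ℝ) :
    ∫ x : Fin (n + 1) → ℝ, kerR p 1 x * Real.cos (R * x 0) =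
      (∫ z : Fin n → ℝ, kerR p 1 z) * I m R := by
  have hmp := (volume_preserving_piFinSuccAbove (fun _ : Fin (n + 1) => ℝ) 0).symm
  have hg : Integrable (fun x : Fin (n + 1) → ℝ => kerR p 1 x * Real.cos (R * x 0)) := by
    refine bdd_integrable p 1 hp one_pos _ ?_ ?_
    · refine Measurable.aestronglyMeasurable ?_
      exact (kerR_measurable p 1).mul (by fun_prop)
    · intro x
      rw [norm_mul, Real.norm_of_nonneg (kerR_nonneg p 1 x)]
      exact mul_le_of_le_one_right (kerR_nonneg p 1 x) (by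
        rw [Real.norm_eq_abs]; exact Real.abs_cos_le_one _)
  have h1 := hmp.integral_comp' (fun x : Fin (n + 1) → ℝ => kerR p 1 x * Real.cos (R * x 0))
  have h2 : Integrable (fun z : ℝ × (Fin n → ℝ) =>
      (fun x : Fin (n + 1) → ℝ => kerR p 1 x * Real.cos (R * x 0))
        ((MeasurableEquiv.piFinSuccAbove (fun _ : Fin (n + 1) => ℝ) 0).symm z)) :=
    hmp.integrable_comp_of_integrable hg
  rw [← h1]
  have h3 := integral_prod _ h2
  refine h3.trans ?_
  have h4 : ∀ (s : ℝ) (z : Fin n → ℝ),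
      (MeasurableEquiv.piFinSuccAbove (fun _ : Fin (n + 1) => ℝ) 0).symm (s, z) =
        (Fin.cons s z : Fin (n + 1) → ℝ) := by
    intro s z
    simp [MeasurableEquiv.piFinSuccAbove, Fin.insertNthEquiv]
  simp only [h4, Fin.cons_zero]
  simp_rw [integral_mul_const, slice p h2p]
  have h5 : ∀ s : ℝ, (if s ^ 2 < 1 then (1 - s ^ 2) ^ m * ∫ z : Fin n → ℝ, kerR p 1 z else 0) *
      Real.cos (R * s) = Set.indicator (Set.Ioo (-1 : ℝ) 1)
        (fun s => (∫ z : Fin n → ℝ, kerR p 1 z) * (Real.cos (R * s) * (1 - s ^ 2) ^ m)) s := by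
    intro s
    by_cases hs : s ^ 2 < 1
    · have hmem : s ∈ Set.Ioo (-1 : ℝ) 1 := by
        rw [Set.mem_Ioo, ← abs_lt]
        exact (sq_lt_one_iff_abs_lt_one s).mp hs
      rw [if_pos hs, Set.indicator_of_mem hmem]
      ring
    · have hmem : s ∉ Set.Ioo (-1 : ℝ) 1 := by
        rw [Set.mem_Ioo, ← abs_lt]
        exact fun h => hs ((sq_lt_one_iff_abs_lt_one s).mpr h)
      rw [if_neg hs, Set.indicator_of_notMem hmem, zero_mul]
  simp_rw [h5]
  rw [integral_indicator measurableSet_Ioo, integral_const_mul, I,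
    intervalIntegral.integral_of_le (by norm_num), integral_Ioc_eq_integral_Ioo]

theorem c_pos {n : ℕ} (p : ℝ) (hp : 0 ≤ p) : 0 < ∫ z : Fin n → ℝ, kerR p 1 z := by
  rw [integral_pos_iff_support_of_nonneg (fun z => kerR_nonneg p 1 z) (kerR_integrable p 1 hp one_pos)]
  have h1 : IsOpen {z : Fin n → ℝ | ∑ k, z k ^ 2 < 1} :=
    isOpen_lt (by fun_prop) continuous_const
  have h2 : 0 < volume {z : Fin n → ℝ | ∑ k, z k ^ 2 < 1} :=
    h1.measure_pos volume ⟨0, by simp⟩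
  refine lt_of_lt_of_le h2 (measure_mono ?_)
  intro z hz
  rw [Set.mem_ofPred_eq] at hz
  rw [Function.mem_support]
  unfold kerR
  rw [if_pos (by simpa using hz)]
  apply ne_of_gt
  apply Real.rpow_pos_of_pos
  simp only [one_pow, div_one]
  linarith

theorem ft2 : S_FT2 := by
  intro d m p hd hp h2p
  obtain ⟨n, rfl⟩ : ∃ n, d = n + 1 := ⟨d - 1, by omega⟩
  have h2p' : 2 * p + (n : ℝ) = 2 * m := by
    rw [← h2p]; push_cast; ring
  refine ⟨∫ z : Fin n → ℝ, kerR p 1 z, c_pos p hp, ?_⟩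
  intro r hr ξ
  rw [scale p r hr (fun x => Real.cos (∑ i, ξ i * x i))]
  have h1 : ∀ y : Fin (n + 1) → ℝ, ∑ i, ξ i * (r • y) i = ∑ i, (r • ξ) i * y i := by
    intro y
    refine Finset.sum_congr rfl fun i _ => ?_
    simp only [Pi.smul_apply, smul_eq_mul]
    ring
  simp_rw [h1]
  rw [rotate, fubini p hp h2p']
  have h2 : √(∑ i, (r • ξ) i ^ 2) = r * √(∑ i, ξ i ^ 2) := by
    have : ∑ i, (r • ξ) i ^ 2 = r ^ 2 * ∑ i, ξ i ^ 2 := by
      rw [Finset.mul_sum]
      refine Finset.sum_congr rfl fun i _ => ?_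
      simp [mul_pow]
    rw [this, Real.sqrt_mul (sq_nonneg r), Real.sqrt_sq hr.le]
  rw [h2]
  ring

end Pool.Agent.W356.SP.FT2
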