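import Mathlib
import Pool.Agent.W306.SP.Defs

set_option autoImplicit false

namespace Pool.Agent.W356.SP.Mag

open MeasureTheory Pool.Agent.W306.SP Polynomial

/-- the polynomial `(1 - X^2)^m` over the complex numbers -/
noncomputable def F (m : ℕ) : Polynomial ℂ := (1 - X ^ 2) ^ m

theorem iteratedDeriv_poly (P : Polynomial ℂ) (n : ℕ) :
    iteratedDeriv n (fun z : ℂ => P.eval z) = fun z => (derivative^[n] P).eval z := by
  induction n with
  | zero => simp
  | succ n ih =>
    rw [iteratedDeriv_succ, ih, Function.iterate_succ_apply']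
    funext z
    simp

theorem F_eval (m : ℕ) (z : ℂ) : (F m).eval z = (1 - z ^ 2) ^ m := by simp [F]

theorem root_one (m j : ℕ) (hj : j < m) : (derivative^[j] (F m)).eval 1 = 0 := by
  have h1 : (X - C (1 : ℂ)) ^ m ∣ F m := by
    have : F m = (X - C (1 : ℂ)) ^ m * (-(X + 1)) ^ m := by
      rw [← mul_pow, F]
      congr 1
      simp only [map_one]
      ring
    exact ⟨_, this⟩
  have h2 := Polynomial.pow_sub_dvd_iterate_derivative_of_pow_dvd j h1
  have h3 : (X - C (1 : ℂ)) ∣ derivative^[j] (F m) :=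
    (dvd_pow_self _ (by omega)).trans h2
  exact Polynomial.dvd_iff_isRoot.mp h3

theorem root_neg (m j : ℕ) (hj : j < m) : (derivative^[j] (F m)).eval (-1) = 0 := by
  have h1 : (X - C (-1 : ℂ)) ^ m ∣ F m := by
    have : F m = (X - C (-1 : ℂ)) ^ m * (1 - X) ^ m := by
      rw [← mul_pow, F]
      congr 1
      simp only [map_neg, map_one]
      ring
    exact ⟨_, this⟩
  have h2 := Polynomial.pow_sub_dvd_iterate_derivative_of_pow_dvd j h1
  have h3 : (X - C (-1 : ℂ)) ∣ derivative^[j] (F m) :=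
    (dvd_pow_self _ (by omega)).trans h2
  exact Polynomial.dvd_iff_isRoot.mp h3

/-- the integrals `J_j` -/
noncomputable def J (m : ℕ) (t : ℝ) (j : ℕ) : ℂ :=
  ∫ s in (-1 : ℝ)..1, Complex.exp (Complex.I * t * s) * (derivative^[j] (F m)).eval (s : ℂ)

theorem J_step (m : ℕ) (t : ℝ) (ht : 0 < t) (j : ℕ) (hj : j < m) :
    J m t j = -(1 / (Complex.I * t)) * J m t (j + 1) := by
  have hne : (Complex.I * t : ℂ) ≠ 0 := by
    simp [Complex.I_ne_zero, ht.ne']
  have hu : ∀ s ∈ Set.uIcc (-1 : ℝ) 1, HasDerivAt (fun s : ℝ => Complex.exp (Complex.I * t * s) / (Complex.I * t))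
      (Complex.exp (Complex.I * t * s)) s := by
    intro s _
    have h1 : HasDerivAt (fun z : ℂ => Complex.exp (Complex.I * t * z) / (Complex.I * t))
        (Complex.exp (Complex.I * t * s)) (s : ℂ) := by
      have h := (((hasDerivAt_id' (s : ℂ)).const_mul (Complex.I * t)).cexp).div_const (Complex.I * t)
      rw [mul_one, mul_div_cancel_right₀ _ hne] at h
      exact h
    exact h1.comp_ofReal
  have hv : ∀ s ∈ Set.uIcc (-1 : ℝ) 1, HasDerivAt (fun s : ℝ => (derivative^[j] (F m)).eval (s : ℂ))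
      ((derivative^[j+1] (F m)).eval (s : ℂ)) s := by
    intro s _
    have h1 : HasDerivAt (fun z : ℂ => (derivative^[j] (F m)).eval z)
        ((derivative^[j+1] (F m)).eval (s : ℂ)) (s : ℂ) := by
      rw [Function.iterate_succ_apply']
      exact Polynomial.hasDerivAt _ _
    exact h1.comp_ofReal
  have hcont : Continuous (fun s : ℝ => (derivative^[j+1] (F m)).eval (s : ℂ)) := by
    exact (Polynomial.continuous _).comp Complex.continuous_ofReal
  have hcont2 : Continuous (fun s : ℝ => Complex.exp (Complex.I * t * s)) := by fun_prop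
  have key := intervalIntegral.integral_deriv_mul_eq_sub hu hv
    (hcont2.intervalIntegrable _ _) (hcont.intervalIntegrable _ _)
  have hcont3 : Continuous (fun s : ℝ => (derivative^[j] (F m)).eval (s : ℂ)) := by
    exact (Polynomial.continuous _).comp Complex.continuous_ofReal
  have hsplit : ∫ s in (-1 : ℝ)..1, (Complex.exp (Complex.I * t * s) * (derivative^[j] (F m)).eval (s : ℂ) +
      Complex.exp (Complex.I * t * s) / (Complex.I * t) * (derivative^[j+1] (F m)).eval (s : ℂ)) =
      J m t j + (1 / (Complex.I * t)) * J m t (j + 1) := by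
    have i1 : IntervalIntegrable (fun s : ℝ => Complex.exp (Complex.I * t * s) *
        (derivative^[j] (F m)).eval (s : ℂ)) volume (-1) 1 :=
      (hcont2.mul hcont3).intervalIntegrable _ _
    have i2 : IntervalIntegrable (fun s : ℝ => Complex.exp (Complex.I * t * s) / (Complex.I * t) *
        (derivative^[j+1] (F m)).eval (s : ℂ)) volume (-1) 1 :=
      ((hcont2.div_const _).mul hcont).intervalIntegrable _ _
    rw [intervalIntegral.integral_add i1 i2]
    congr 1
    rw [J, ← intervalIntegral.integral_const_mul]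
    congr 1
    funext s
    ring
  rw [hsplit] at key
  have e1 : (derivative^[j] (F m)).eval ((1 : ℝ) : ℂ) = 0 := by
    rw [Complex.ofReal_one]; exact root_one m j hj
  have e2 : (derivative^[j] (F m)).eval ((-1 : ℝ) : ℂ) = 0 := by
    rw [Complex.ofReal_neg, Complex.ofReal_one]; exact root_neg m j hj
  rw [e1, e2, mul_zero, mul_zero, sub_zero] at key
  linear_combination key

theorem J_norm (m : ℕ) (t : ℝ) (ht : 0 < t) (j : ℕ) (hj : j ≤ m) :
    ‖J m t 0‖ = ‖J m t j‖ / t ^ j := by
  induction j with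
  | zero => simp
  | succ j ih =>
    rw [ih (by omega), J_step m t ht j (by omega), norm_mul, norm_neg, norm_div, norm_mul,
      Complex.norm_I, Complex.norm_real, Real.norm_of_nonneg ht.le, norm_one, pow_succ]
    field_simp

theorem cauchy (m : ℕ) (s : ℝ) (h1 : -1 < s) (h2 : s < 1) :
    ‖(derivative^[m] (F m)).eval (s : ℂ)‖ ≤ 2 ^ m * m.factorial := by
  have hpos : 0 < 1 - s ^ 2 := by nlinarith
  set ρ : ℝ := √(1 - s ^ 2) with hρ
  have hρ0 : 0 < ρ := Real.sqrt_pos.mpr hpos
  have hρ2 : ρ ^ 2 = 1 - s ^ 2 := Real.sq_sqrt hpos.le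
  have hC : ∀ z ∈ Metric.sphere (s : ℂ) ρ, ‖(F m).eval z‖ ≤ (2 * ρ) ^ m := by
    intro z hz
    rw [F_eval, norm_pow]
    apply pow_le_pow_left₀ (norm_nonneg _)
    rw [mem_sphere_iff_norm] at hz
    have hz2 : (z.re - s) ^ 2 + z.im ^ 2 = ρ ^ 2 := by
      rw [← hz, ← Complex.normSq_eq_norm_sq, Complex.normSq_apply]
      simp only [Complex.sub_re, Complex.sub_im, Complex.ofReal_re, Complex.ofReal_im]
      ring
    have h3 : ‖1 - z ^ 2‖ ^ 2 ≤ (2 * ρ) ^ 2 := by
      rw [← Complex.normSq_eq_norm_sq, Complex.normSq_apply]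
      have e1 : (1 - z ^ 2).re = 1 - (z.re ^ 2 - z.im ^ 2) := by
        simp [pow_two]
      have e2 : (1 - z ^ 2).im = - (2 * z.re * z.im) := by
        simp [pow_two]; ring
      rw [e1, e2]
      set a := z.re - s with ha
      have hre : z.re = s + a := by rw [ha]; ring
      rw [hre]
      set b := z.im
      -- 1 = s^2 + ρ^2 = s^2 + a^2 + b^2
      have h4 : a ^ 2 = 1 - s ^ 2 - b ^ 2 := by linarith
      have h5 : (1 - ((s + a) ^ 2 - b ^ 2)) * (1 - ((s + a) ^ 2 - b ^ 2)) +
        -(2 * (s + a) * b) * -(2 * (s + a) * b) = 4 * ρ ^ 2 * (s ^ 2 + b ^ 2) := by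
        have h6 : (1 : ℝ) = s ^ 2 + (a ^ 2 + b ^ 2) := by linarith
        have h7 : 1 - ((s + a) ^ 2 - b ^ 2) = 2 * b ^ 2 - 2 * s * a := by linarith
        rw [h7, ← hz2]
        linear_combination 4 * b ^ 2 * (a^2 + b^2) * h6 - 4 * b ^ 2 * (a^2+b^2)* h6
      rw [h5]
      have : s ^ 2 + b ^ 2 ≤ 1 := by nlinarith [sq_nonneg a]
      nlinarith [mul_nonneg (sq_nonneg ρ) (sub_nonneg.mpr this)]
    exact (abs_le_of_sq_le_sq' h3 (by positivity)).2
  have h := Complex.norm_iteratedDeriv_le_of_forall_mem_sphere_norm_le (c := (s : ℂ)) (R := ρ)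
    (C := (2 * ρ) ^ m) (f := fun z => (F m).eval z) m hρ0
    ((F m).differentiable.diffContOnCl) hC
  rw [iteratedDeriv_poly] at h
  refine h.trans (le_of_eq ?_)
  rw [mul_pow]
  field_simp

theorem J_le (m : ℕ) (t : ℝ) : ‖J m t m‖ ≤ 2 * (2 ^ m * m.factorial) := by
  rw [J]
  have hae : ∀ᵐ x : ℝ, x ≠ 1 := by simp [ae_iff, measure_singleton]
  have h := intervalIntegral.norm_integral_le_of_norm_le_const_ae (a := (-1 : ℝ)) (b := 1)
    (f := fun s : ℝ => Complex.exp (Complex.I * t * s) * (derivative^[m] (F m)).eval (s : ℂ))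
    (C := 2 ^ m * m.factorial) (by
      filter_upwards [hae] with x hx hmem
      rw [Set.uIoc_of_le (by norm_num)] at hmem
      have hlt : x < 1 := lt_of_le_of_ne hmem.2 hx
      rw [norm_mul]
      have e1 : ‖Complex.exp (Complex.I * t * x)‖ = 1 := by
        have : Complex.I * t * x = ((t * x : ℝ) : ℂ) * Complex.I := by
          push_cast; ring
        rw [this, Complex.norm_exp_ofReal_mul_I]
      rw [e1, one_mul]
      exact cauchy m x hmem.1 hlt)
  refine h.trans (le_of_eq ?_)
  norm_num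
  ring

theorem mag : S_MAG := by
  intro m t ht
  have h1 : I m t = (J m t 0).re := by
    rw [J, I]
    have hc : Continuous (fun s : ℝ => Complex.exp (Complex.I * t * s) *
        (derivative^[0] (F m)).eval (s : ℂ)) := by
      refine Continuous.mul (by fun_prop) ?_
      exact (Polynomial.continuous _).comp Complex.continuous_ofReal
    have h2 := Complex.reCLM.intervalIntegral_comp_comm (hc.intervalIntegrable (μ := volume) (-1) 1)
    simp only [Complex.reCLM_apply] at h2
    rw [← h2]
    congr 1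
    funext s
    simp only [Function.iterate_zero, id_eq]
    rw [F_eval]
    have e1 : Complex.I * t * s = ((t * s : ℝ) : ℂ) * Complex.I := by
      push_cast; ring
    have e2 : ((1 : ℂ) - (s : ℂ) ^ 2) ^ m = (((1 - s ^ 2) ^ m : ℝ) : ℂ) := by
      push_cast; ring
    rw [e1, e2, Complex.re_mul_ofReal, Complex.exp_ofReal_mul_I_re]
  rw [h1]
  refine (Complex.abs_re_le_norm _).trans ?_
  rw [J_norm m t ht m le_rfl]
  have := J_le m t
  rw [mul_assoc]
  gcongr

end Pool.Agent.W356.SP.Mag
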